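import Mathlib
import Pool.Agent.H65.N6P.Targets

/-!
# Two quadrics in `ℙ⁶`, block P: the choice lemma
-/

set_option autoImplicit false

open Polynomial NumberField IsDedekindDomain Matrix Pool.Agent.H32.QC Pool.Agent.H34.N6
  Pool.Agent.H65.N6P

namespace Pool.Agent.H23.N6P

/-- only finitely many shifts are not coprime to a given polynomial -/
theorem finite_bad {k : Type} [Field k] (A R : k[X]) (hR : R ≠ 0) :
    {d : k | ¬ IsCoprime (A + C d) R}.Finite := by
  classical
  have key : ∀ d : k, d ∈ {d : k | ¬ IsCoprime (A + C d) R} →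
      ∃ r ∈ UniqueFactorizationMonoid.factors R, Irreducible r ∧ r ∣ A + C d := by
    intro d hd
    have h1 : ¬ IsCoprime (A + C d) R := hd
    by_contra hcon
    apply h1
    apply isCoprime_of_irreducible_dvd
    · rintro ⟨-, h⟩
      exact hR h
    · intro z hz hz1 hz2
      obtain ⟨r, hr, hass⟩ := UniqueFactorizationMonoid.exists_mem_factors_of_dvd hR hz hz2
      exact hcon ⟨r, hr, hass.irreducible hz, hass.symm.dvd.trans hz1⟩
  set f : k → k[X] := fun d => if h : ∃ r ∈ UniqueFactorizationMonoid.factors R, Irreducible r ∧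
    r ∣ A + C d then h.choose else 0 with hf
  apply Set.Finite.of_injOn (f := f) (t := ((UniqueFactorizationMonoid.factors R).toFinset : Set k[X]))
  · intro d hd
    have h := key d hd
    have h1 : f d = h.choose := by
      rw [hf]
      exact dif_pos h
    rw [h1]
    exact Multiset.mem_toFinset.2 h.choose_spec.1
  · intro d hd d' hd' hdd
    have h := key d hd
    have h' := key d' hd'
    have h1 : f d = h.choose := by
      rw [hf]
      exact dif_pos h
    have h1' : f d' = h'.choose := by
      rw [hf]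
      exact dif_pos h'
    have h2 : f d ∣ A + C d := by rw [h1]; exact h.choose_spec.2.2
    have h2' : f d' ∣ A + C d' := by rw [h1']; exact h'.choose_spec.2.2
    have h3 : Irreducible (f d) := by rw [h1]; exact h.choose_spec.2.1
    rw [← hdd] at h2'
    by_contra hne
    have h4 : f d ∣ C (d - d') := by
      have h5 := dvd_sub h2 h2'
      have h6 : A + C d - (A + C d') = C (d - d') := by
        rw [C_sub]
        ring
      rw [h6] at h5
      exact h5
    have h5 : IsUnit (C (d - d') : k[X]) :=
      Polynomial.isUnit_C.2 (isUnit_iff_ne_zero.2 (sub_ne_zero.2 hne))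
    exact h3.not_isUnit (isUnit_of_dvd_unit h4 h5)
  · exact Finset.finite_toSet _

/-- small elements of a dense subfield -/
theorem infinite_small {k : Type} [Field k] {F : Type} [NontriviallyNormedField F] (ι : k →+* F)
    (hι : DenseRange ι) {ε : ℝ} (hε : 0 < ε) : {d : k | ‖ι d‖ < ε}.Infinite := by
  intro hfin
  have h1 : (ι '' {d : k | ‖ι d‖ < ε}).Finite := hfin.image ι
  have h2 : (Metric.ball (0 : F) ε).Infinite :=
    infinite_of_mem_nhds 0 (Metric.ball_mem_nhds 0 hε)
  have h3 : (Metric.ball (0 : F) ε \ (ι '' {d : k | ‖ι d‖ < ε})).Nonempty :=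
    (h2.sdiff h1).nonempty
  have h4 : IsOpen (Metric.ball (0 : F) ε \ (ι '' {d : k | ‖ι d‖ < ε})) :=
    Metric.isOpen_ball.sdiff h1.isClosed
  obtain ⟨d, hd⟩ := hι.exists_mem_open h4 h3
  apply hd.2
  refine ⟨d, ?_, rfl⟩
  have h5 := hd.1
  rw [Metric.mem_ball, dist_zero_right] at h5
  exact h5

theorem pf_APX : T_APX := by
  intro k _ _ F _ ι hι P A m ε hP hA ha hε
  classical
  have hε2 : 0 < ε / 2 := half_pos hε
  have hx : ∀ i : ℕ, ∃ x : k, ‖ι x - A.coeff i‖ < ε / 2 := by
    intro i
    obtain ⟨x, hx⟩ := hι.exists_dist_lt (A.coeff i) hε2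
    refine ⟨x, ?_⟩
    rw [← dist_eq_norm, dist_comm]
    exact hx
  choose x hx using hx
  set a := A.natDegree with hadef
  set B : k[X] := ∑ i ∈ Finset.range a, C (x i) * X ^ i with hB
  have hBc : ∀ i, B.coeff i = if i < a then x i else 0 := by
    intro i
    rw [hB, Polynomial.finsetSum_coeff]
    simp only [Polynomial.coeff_C_mul, Polynomial.coeff_X_pow, mul_ite, mul_one, mul_zero]
    rw [Finset.sum_ite_eq]
    simp only [Finset.mem_range]
  have hBd : B.degree < a := by
    rw [Polynomial.degree_lt_iff_coeff_zero]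
    intro i hi
    rw [hBc, if_neg (not_lt.2 hi)]
  set A1 : k[X] := X ^ a + B with hA1
  have hA1m : ∀ d : k, (A1 + C d).Monic ∧ (A1 + C d).natDegree = a := by
    intro d
    have h1 : (B + C d).degree < a := by
      refine (Polynomial.degree_add_le _ _).trans_lt (max_lt hBd ?_)
      refine Polynomial.degree_C_le.trans_lt ?_
      exact_mod_cast ha
    have h2 : A1 + C d = X ^ a + (B + C d) := by rw [hA1]; ring
    rw [h2]
    refine ⟨Polynomial.monic_X_pow_add h1, ?_⟩
    apply Polynomial.natDegree_eq_of_degree_eq_some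
    rw [Polynomial.degree_add_eq_left_of_degree_lt, Polynomial.degree_X_pow]
    rw [Polynomial.degree_X_pow]
    exact h1
  have hclose : ∀ d : k, ‖ι d‖ < ε / 2 → ∀ i, ‖((A1 + C d).map ι - A).coeff i‖ < ε := by
    intro d hd i
    have h1 : ((A1 + C d).map ι - A).coeff i = ι ((if i = a then 1 else 0) +
        (if i < a then x i else 0) + if i = 0 then d else 0) - A.coeff i := by
      rw [coeff_sub, coeff_map, hA1, coeff_add, coeff_add, hBc, coeff_X_pow, coeff_C]
    rw [h1]
    rcases lt_trichotomy i a with h | h | h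
    · rw [if_neg h.ne, if_pos h, zero_add]
      by_cases h0 : i = 0
      · rw [if_pos h0, map_add]
        have h2 : ι (x i) + ι d - A.coeff i = (ι (x i) - A.coeff i) + ι d := by ring
        rw [h2]
        calc ‖(ι (x i) - A.coeff i) + ι d‖ ≤ ‖ι (x i) - A.coeff i‖ + ‖ι d‖ := norm_add_le _ _
          _ < ε / 2 + ε / 2 := add_lt_add (hx i) hd
          _ = ε := add_halves ε
      · rw [if_neg h0, add_zero]
        exact (hx i).trans (half_lt_self hε)
    · have h0 : i ≠ 0 := by omega
      rw [if_pos h, if_neg h.not_lt, if_neg h0, add_zero, add_zero, map_one, h, hadef,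
        hA.coeff_natDegree, sub_self, norm_zero]
      exact hε
    · have h0 : i ≠ 0 := by omega
      rw [if_neg h.ne', if_neg (not_lt.2 h.le), if_neg h0, add_zero, add_zero, map_zero,
        Polynomial.coeff_eq_zero_of_natDegree_lt h, sub_zero, norm_zero]
      exact hε
  have hder : derivative A1 ≠ 0 := by
    intro h
    have h1 := Polynomial.derivative_eq_zero.1 h
    have h2 := (hA1m 0).2
    rw [C_0, add_zero, h1] at h2
    omega
  have hinf : ({d : k | ‖ι d‖ < ε / 2} \ ({d : k | ¬ IsCoprime (A1 + C d) P} ∪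
      {d : k | ¬ IsCoprime (A1 + C d) (derivative A1)})).Infinite :=
    (infinite_small ι hι hε2).sdiff ((finite_bad A1 P hP).union (finite_bad A1 _ hder))
  set d : Fin m → k := fun j => (hinf.natEmbedding _ (j : ℕ) : k) with hd
  have hdmem : ∀ j, d j ∈ ({d : k | ‖ι d‖ < ε / 2} \ ({d : k | ¬ IsCoprime (A1 + C d) P} ∪
      {d : k | ¬ IsCoprime (A1 + C d) (derivative A1)})) := fun j =>
    (hinf.natEmbedding _ (j : ℕ)).2
  have hdinj : Function.Injective d := by
    intro i j hij
    exact Fin.ext ((hinf.natEmbedding _).injective (Subtype.ext hij))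
  have hcop : ∀ j, IsCoprime (A1 + C (d j)) P := by
    intro j
    have h := (hdmem j).2
    by_contra hcon
    exact h (Or.inl hcon)
  have hsep : ∀ j, (A1 + C (d j)).Separable := by
    intro j
    have h := (hdmem j).2
    have h1 : IsCoprime (A1 + C (d j)) (derivative A1) := by
      by_contra hcon
      exact h (Or.inr hcon)
    show IsCoprime _ _
    rw [derivative_add, derivative_C, add_zero]
    exact h1
  refine ⟨fun j => A1 + C (d j), ?_, ?_, ?_⟩
  · intro j
    exact ⟨(hA1m _).1, (hA1m _).2, hclose _ (hdmem j).1⟩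
  · apply Polynomial.separable_prod
    · intro i j hij
      have hne : d i - d j ≠ 0 := sub_ne_zero.2 fun h => hij (hdinj h)
      show IsCoprime (A1 + C (d i)) (A1 + C (d j))
      refine ⟨C (d i - d j)⁻¹, -C (d i - d j)⁻¹, ?_⟩
      have h1 : C (d i - d j)⁻¹ * (A1 + C (d i)) + -C (d i - d j)⁻¹ * (A1 + C (d j)) =
          C ((d i - d j)⁻¹ * (d i - d j)) := by
        rw [C_mul, C_sub]
        ring
      rw [h1, inv_mul_cancel₀ hne, C_1]
    · exact hsep
  · exact IsCoprime.prod_left fun j _ => hcop j

end Pool.Agent.H23.N6P
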