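import Mathlib
import Pool.Agent.H65.N6P.Targets
import Pool.Agent.H23.N6.Hens

/-!
# Two quadrics in `ℙ⁶`, block P: matrices near a split matrix are split
-/

set_option autoImplicit false

open Polynomial NumberField IsDedekindDomain Matrix Pool.Agent.H32.QC Pool.Agent.H34.N6
  Pool.Agent.H65.N6P Pool.Agent.H23.N6

namespace Pool.Agent.H23.N6P

/-- totally isotropic subspaces in other coordinates -/
theorem TI_congr {F : Type*} [Field F] {n r : ℕ} {M g : Matrix (Fin n) (Fin n) F}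
    (hg : g.det ≠ 0) (h : TI M r) : TI (gᵀ * M * g) r := by
  obtain ⟨b, hb, hz⟩ := h
  have hu : IsUnit g.det := isUnit_iff_ne_zero.2 hg
  have h1 : ∀ x : Fin n → F, g *ᵥ (g⁻¹ *ᵥ x) = x := by
    intro x
    rw [Matrix.mulVec_mulVec, Matrix.mul_nonsing_inv g hu, Matrix.one_mulVec]
  refine ⟨fun i => g⁻¹ *ᵥ b i, ?_, ?_⟩
  · apply LinearIndependent.of_comp g.mulVecLin
    have h2 : (g.mulVecLin ∘ fun i => g⁻¹ *ᵥ b i) = b := by
      funext i
      exact h1 (b i)
    rw [h2]
    exact hb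
  · intro i j
    have h5 : (g⁻¹ *ᵥ b i) ⬝ᵥ ((gᵀ * M * g) *ᵥ (g⁻¹ *ᵥ b j)) = b i ⬝ᵥ (M *ᵥ b j) := by
      rw [← Matrix.mulVec_mulVec, h1, ← Matrix.mulVec_mulVec, Matrix.dotProduct_mulVec,
        ← Matrix.mulVec_transpose, Matrix.transpose_transpose, h1]
    rw [h5]
    exact hz i j

section

variable {F : Type*} [NormedField F] [IsUltrametricDist F] {n : ℕ}

theorem norm_sub_le_max' (x y : F) : ‖x - y‖ ≤ max ‖x‖ ‖y‖ := by
  rw [sub_eq_add_neg]
  have h := IsUltrametricDist.norm_add_le_max x (-y)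
  rw [norm_neg] at h
  exact h

theorem mul_bd {M N : Matrix (Fin n) (Fin n) F} {a b : ℝ} (ha : 0 ≤ a) (hb : 0 ≤ b)
    (hM : ∀ i j, ‖M i j‖ ≤ a) (hN : ∀ i j, ‖N i j‖ ≤ b) (i j : Fin n) :
    ‖(M * N) i j‖ ≤ a * b := by
  rw [Matrix.mul_apply]
  apply norm_sum_le_of _ _ (mul_nonneg ha hb)
  intro l _
  rw [norm_mul]
  exact mul_le_mul (hM i l) (hN l j) (norm_nonneg _) ha

theorem vec_bd {M : Matrix (Fin n) (Fin n) F} {x : Fin n → F} {a b : ℝ} (ha : 0 ≤ a) (hb : 0 ≤ b)
    (hM : ∀ i j, ‖M i j‖ ≤ a) (hx : ∀ j, ‖x j‖ ≤ b) (i : Fin n) : ‖(M *ᵥ x) i‖ ≤ a * b := by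
  show ‖∑ l, M i l * x l‖ ≤ a * b
  apply norm_sum_le_of _ _ (mul_nonneg ha hb)
  intro l _
  rw [norm_mul]
  exact mul_le_mul (hM i l) (hx l) (norm_nonneg _) ha

end

theorem pf_OPM (_hTIC : Pool.Agent.H32.SAB.T_TIC) : T_OPM := by
  intro F _ _ _ n r A B E α h4 hA hE hAB hα hB hEα hTI
  have hα0 : 0 < α := lt_of_lt_of_le one_pos hα
  have h4pos : 0 < ‖(4 : F)‖ := norm_pos_iff.2 h4
  have hBA : B * A = 1 := mul_eq_one_comm.1 hAB
  have hBs : Bᵀ = B := by
    have h1 : Bᵀ * A = 1 := by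
      have h2 := congrArg Matrix.transpose hAB
      rw [Matrix.transpose_mul, hA.eq, Matrix.transpose_one] at h2
      exact h2
    calc Bᵀ = Bᵀ * (A * B) := by rw [hAB, Matrix.mul_one]
      _ = (Bᵀ * A) * B := by rw [Matrix.mul_assoc]
      _ = B := by rw [h1, Matrix.one_mul]
  set E' : Matrix (Fin n) (Fin n) F := (4 : F)⁻¹ • E with hE'
  have hE's : E'ᵀ = E' := by rw [hE', Matrix.transpose_smul, hE.eq]
  obtain ⟨ρ, hρ0, hρα, hρ⟩ : ∃ ρ : ℝ, 0 ≤ ρ ∧ ρ * α < 1 ∧ ∀ i j, ‖E' i j‖ ≤ ρ := by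
    refine ⟨‖(fun i j => E' i j : Fin n → Fin n → F)‖, norm_nonneg _, ?_, ?_⟩
    · rw [← lt_div_iff₀ hα0]
      rw [pi_norm_lt_iff (by positivity)]
      intro i
      rw [pi_norm_lt_iff (by positivity)]
      intro j
      rw [lt_div_iff₀ hα0, hE', Matrix.smul_apply, smul_eq_mul, norm_mul, norm_inv]
      have h1 := hEα i j
      have h2 : ‖(4 : F)‖⁻¹ * ‖E i j‖ * α = ‖E i j‖ * α / ‖(4 : F)‖ := by
        field_simp
      rw [h2, div_lt_one h4pos]
      exact h1
    · intro i j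
      exact (norm_le_pi_norm (fun j => E' i j) j).trans
        (norm_le_pi_norm (fun i j => E' i j : Fin n → Fin n → F) i)
  set s : ℕ → Matrix (Fin n) (Fin n) F := fun m => Nat.rec 0 (fun _ T => E' - T * B * T) m with hs
  have hs0 : s 0 = 0 := rfl
  have hss : ∀ m, s (m + 1) = E' - s m * B * s m := fun m => rfl
  have hbd : ∀ m i j, ‖s m i j‖ ≤ ρ := by
    intro m
    induction m with
    | zero =>
      intro i j
      rw [hs0, Matrix.zero_apply, norm_zero]
      exact hρ0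
    | succ m ih =>
      intro i j
      rw [hss, Matrix.sub_apply]
      refine (norm_sub_le_max' _ _).trans (max_le (hρ i j) ?_)
      refine (mul_bd (mul_nonneg hρ0 hα0.le) hρ0 (mul_bd hρ0 hα0.le ih hB) ih i j).trans ?_
      calc ρ * α * ρ ≤ 1 * ρ := mul_le_mul_of_nonneg_right hρα.le hρ0
        _ = ρ := one_mul _
  have hsym : ∀ m, (s m)ᵀ = s m := by
    intro m
    induction m with
    | zero => rw [hs0, Matrix.transpose_zero]
    | succ m ih =>
      rw [hss, Matrix.transpose_sub, Matrix.transpose_mul, Matrix.transpose_mul, hBs, ih, hE's,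
        Matrix.mul_assoc]
  set κ := ρ * α with hκ
  have hκ0 : 0 ≤ κ := mul_nonneg hρ0 hα0.le
  have hdiff : ∀ m i j, ‖s (m + 1) i j - s m i j‖ ≤ ρ * κ ^ m := by
    intro m
    induction m with
    | zero =>
      intro i j
      rw [hs0, Matrix.zero_apply, sub_zero, pow_zero, mul_one]
      exact hbd 1 i j
    | succ m ih =>
      intro i j
      have e1 : s (m + 1 + 1) i j - s (m + 1) i j =
          -((s (m + 1) * B * (s (m + 1) - s m) + (s (m + 1) - s m) * B * s m) i j) := by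
        rw [hss (m + 1), hss m]
        simp only [Matrix.sub_apply, Matrix.add_apply, Matrix.mul_sub, Matrix.sub_mul]
        ring
      rw [e1, norm_neg, Matrix.add_apply]
      have hd : ∀ i j, ‖(s (m + 1) - s m) i j‖ ≤ ρ * κ ^ m := by
        intro i j
        rw [Matrix.sub_apply]
        exact ih i j
      have hk0 : 0 ≤ ρ * κ ^ m := by positivity
      refine (IsUltrametricDist.norm_add_le_max _ _).trans (max_le ?_ ?_)
      · refine (mul_bd hκ0 hk0 (mul_bd hρ0 hα0.le (hbd (m + 1)) hB) hd i j).trans ?_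
        rw [pow_succ]
        apply le_of_eq
        ring
      · refine (mul_bd (mul_nonneg hk0 hα0.le) hρ0 (mul_bd hk0 hα0.le hd hB) (hbd m) i j).trans ?_
        rw [pow_succ]
        apply le_of_eq
        rw [hκ]
        ring
  have hcau : ∀ i j, ∃ t : F, Filter.Tendsto (fun m => s m i j) Filter.atTop (nhds t) := by
    intro i j
    apply cauchySeq_tendsto_of_complete
    apply cauchySeq_of_le_geometric κ ρ hρα
    intro m
    rw [dist_comm, dist_eq_norm]
    exact hdiff m i j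
  choose T0 hT0 using hcau
  set T : Matrix (Fin n) (Fin n) F := T0 with hT
  have hlim : Filter.Tendsto s Filter.atTop (nhds T) := by
    exact tendsto_pi_nhds.2 fun i => tendsto_pi_nhds.2 fun j => hT0 i j
  have hTbd : ∀ i j, ‖T i j‖ ≤ ρ := fun i j =>
    le_of_tendsto (hT0 i j).norm (Filter.Eventually.of_forall fun m => hbd m i j)
  have hTs : Tᵀ = T := by
    have h1 : Filter.Tendsto (fun m => (s m)ᵀ) Filter.atTop (nhds Tᵀ) := by
      have hc : Continuous (fun M : Matrix (Fin n) (Fin n) F => Mᵀ) :=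
        Continuous.matrix_transpose continuous_id
      exact (hc.tendsto T).comp hlim
    have h2 : (fun m => (s m)ᵀ) = s := funext hsym
    rw [h2] at h1
    exact tendsto_nhds_unique h1 hlim
  have hfix : T = E' - T * B * T := by
    have h1 : Filter.Tendsto (fun m => E' - s m * B * s m) Filter.atTop
        (nhds (E' - T * B * T)) := by
      have hc : Continuous (fun M : Matrix (Fin n) (Fin n) F => E' - M * B * M) := by
        fun_prop
      exact (hc.tendsto T).comp hlim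
    have h2 : Filter.Tendsto (fun m => s (m + 1)) Filter.atTop (nhds T) :=
      hlim.comp (Filter.tendsto_add_atTop_nat 1)
    exact tendsto_nhds_unique h2 h1
  set C : Matrix (Fin n) (Fin n) F := 1 + (2 : F) • (B * T) with hC
  have hCt : Cᵀ = 1 + (2 : F) • (T * B) := by
    rw [hC, Matrix.transpose_add, Matrix.transpose_one, Matrix.transpose_smul,
      Matrix.transpose_mul, hBs, hTs]
  have hCAC : Cᵀ * A * C = A + E := by
    have e1 : E = (4 : F) • (T + T * B * T) := by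
      have h1 : T + T * B * T = E' := by
        nth_rewrite 1 [hfix]
        rw [sub_add_cancel]
      rw [h1, hE', smul_smul, mul_inv_cancel₀ h4, one_smul]
    have e2 : T * B * A = T := by rw [Matrix.mul_assoc, hBA, Matrix.mul_one]
    have e3 : A * (B * T) = T := by rw [← Matrix.mul_assoc, hAB, Matrix.one_mul]
    rw [hCt, hC, Matrix.add_mul, Matrix.one_mul, Matrix.smul_mul, e2, Matrix.mul_add,
      Matrix.mul_one, Matrix.mul_smul, Matrix.add_mul, e3, Matrix.smul_mul, e1, ← Matrix.mul_assoc]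
    refine Matrix.ext fun i j => ?_
    simp only [Matrix.add_apply, Matrix.smul_apply, smul_eq_mul]
    ring
  have hCdet : C.det ≠ 0 := by
    intro hcon
    obtain ⟨x, hx, hCx⟩ := Matrix.exists_mulVec_eq_zero_iff.2 hcon
    have hx1 : x = -((2 : F) • (B *ᵥ (T *ᵥ x))) := by
      rw [hC, Matrix.add_mulVec, Matrix.one_mulVec, Matrix.smul_mulVec, ← Matrix.mulVec_mulVec]
        at hCx
      exact eq_neg_of_add_eq_zero_left hCx
    have hxpos : 0 < ‖x‖ := norm_pos_iff.2 hx
    have h2 : ‖(2 : F)‖ ≤ 1 := by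
      have h3 := norm_natCast_le (F := F) 2
      rw [Nat.cast_ofNat] at h3
      exact h3
    have hle : ‖x‖ ≤ κ * ‖x‖ := by
      rw [pi_norm_le_iff_of_nonneg (by positivity)]
      intro i
      have h3 : ‖(B *ᵥ (T *ᵥ x)) i‖ ≤ α * (ρ * ‖x‖) :=
        vec_bd hα0.le (by positivity) hB (vec_bd hρ0 (norm_nonneg _) hTbd
          (fun j => norm_le_pi_norm x j)) i
      have h4' : ‖x i‖ = ‖(2 : F)‖ * ‖(B *ᵥ (T *ᵥ x)) i‖ := by
        have h5 := congrFun hx1 i
        rw [Pi.neg_apply, Pi.smul_apply, smul_eq_mul] at h5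
        rw [h5, norm_neg, norm_mul]
      rw [h4']
      calc ‖(2 : F)‖ * ‖(B *ᵥ (T *ᵥ x)) i‖ ≤ 1 * (α * (ρ * ‖x‖)) :=
            mul_le_mul h2 h3 (norm_nonneg _) zero_le_one
        _ = κ * ‖x‖ := by rw [hκ]; ring
    have hlt : κ * ‖x‖ < 1 * ‖x‖ := mul_lt_mul_of_pos_right hρα hxpos
    rw [one_mul] at hlt
    exact absurd hle (not_le.2 hlt)
  rw [← hCAC]
  exact TI_congr hCdet hTI

end Pool.Agent.H23.N6P
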