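import Mathlib
import Pool.Agent.H65.N6P.Targets
import Pool.Agent.H23.N6.Hens

/-!
# Two quadrics in `ℙ⁶`, block P: the values of `D` near a root
-/

set_option autoImplicit false

open Polynomial NumberField IsDedekindDomain Matrix Pool.Agent.H32.QC Pool.Agent.H34.N6
  Pool.Agent.H65.N6P Pool.Agent.H23.N6

namespace Pool.Agent.H23.N6P

theorem le_inv_iff_aux {x y : ℝ} (hy : 0 < y) : x ≤ y⁻¹ ↔ x * y ≤ 1 := by
  rw [← one_div, le_div_iff₀ hy]

section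

variable {F : Type*} [NormedField F] [IsUltrametricDist F]

theorem norm_pow_sub_pow_bd {R : ℝ} {x y : F} (hx : ‖x‖ ≤ R) (hy : ‖y‖ ≤ R)
    (i : ℕ) : ‖x ^ (i + 1) - y ^ (i + 1)‖ ≤ R ^ i * ‖x - y‖ := by
  have hR : 0 ≤ R := (norm_nonneg _).trans hx
  have h1 : x ^ (i + 1) - y ^ (i + 1) =
      (∑ j ∈ Finset.range (i + 1), x ^ j * y ^ (i + 1 - 1 - j)) * (x - y) :=
    (Commute.all x y).geom_sum₂_mul _ |>.symm
  rw [h1, norm_mul]
  apply mul_le_mul_of_nonneg_right _ (norm_nonneg _)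
  apply norm_sum_le_of _ _ (by positivity)
  intro j hj
  rw [Finset.mem_range] at hj
  rw [norm_mul, norm_pow, norm_pow]
  calc ‖x‖ ^ j * ‖y‖ ^ (i + 1 - 1 - j) ≤ R ^ j * R ^ (i + 1 - 1 - j) := by
        apply mul_le_mul (pow_le_pow_left₀ (norm_nonneg _) hx _)
          (pow_le_pow_left₀ (norm_nonneg _) hy _) (by positivity) (by positivity)
    _ = R ^ i := by
        rw [← pow_add]
        congr 1
        omega

theorem eval_sub_bd {Q : F[X]} {R : ℝ} (hR : 1 ≤ R) (hQ : ∀ i, ‖Q.coeff i‖ ≤ R) {x y : F}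
    (hx : ‖x‖ ≤ R) (hy : ‖y‖ ≤ R) :
    ‖eval x Q - eval y Q‖ ≤ R ^ (Q.natDegree + 1) * ‖x - y‖ := by
  have hR0 : 0 ≤ R := zero_le_one.trans hR
  have hlt : Q.natDegree < Q.natDegree + 1 := by omega
  rw [Polynomial.eval_eq_sum_range' hlt, Polynomial.eval_eq_sum_range' hlt,
    Finset.sum_range_succ', Finset.sum_range_succ']
  have e1 : (∑ i ∈ Finset.range Q.natDegree, Q.coeff (i + 1) * x ^ (i + 1) +
      Q.coeff 0 * x ^ 0) - (∑ i ∈ Finset.range Q.natDegree, Q.coeff (i + 1) * y ^ (i + 1) +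
      Q.coeff 0 * y ^ 0) =
      ∑ i ∈ Finset.range Q.natDegree, Q.coeff (i + 1) * (x ^ (i + 1) - y ^ (i + 1)) := by
    simp only [mul_sub, Finset.sum_sub_distrib]
    ring
  rw [e1]
  apply norm_sum_le_of _ _ (by positivity)
  intro i hi
  rw [Finset.mem_range] at hi
  rw [norm_mul]
  calc ‖Q.coeff (i + 1)‖ * ‖x ^ (i + 1) - y ^ (i + 1)‖ ≤ R * (R ^ i * ‖x - y‖) :=
        mul_le_mul (hQ _) (norm_pow_sub_pow_bd hx hy i) (norm_nonneg _) hR0
    _ = R ^ (i + 1) * ‖x - y‖ := by ring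
    _ ≤ R ^ (Q.natDegree + 1) * ‖x - y‖ :=
        mul_le_mul_of_nonneg_right (pow_le_pow_right₀ hR (by omega)) (norm_nonneg _)

end

theorem pf_OPY (hSQR : T_SQR) (hBDD : T_BDD) : T_OPY := by
  intro F _ _ _ p D G₀ hp hp1 hG hcop
  obtain ⟨s, hs⟩ := hBDD F p G₀ D hp hp1 hG hcop
  -- a bound for `1 / 4`
  obtain ⟨s3, hs3⟩ : ∃ s3 : ℕ, ‖(4 : F)⁻¹ * p ^ s3‖ ≤ 1 := by
    have h1 := tendsto_pow_atTop_nhds_zero_of_lt_one (norm_nonneg p) hp1
    have h2 := h1.const_mul ‖(4 : F)⁻¹‖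
    rw [mul_zero] at h2
    obtain ⟨s3, h3⟩ := (h2.eventually (gt_mem_nhds one_pos)).exists
    refine ⟨s3, ?_⟩
    rw [norm_mul, norm_pow]
    exact h3.le
  refine ⟨2 * s + s * (D.natDegree + 1) + s3 + 1, ?_⟩
  intro F2 _ _ _ φ hφ θ θ' hθ' hclose
  obtain ⟨h1, h2, h3⟩ := hs F2 φ hφ θ' hθ'
  set q := ‖φ p‖ with hq
  have hp0 : p ≠ 0 := norm_pos_iff.1 hp
  have hq0 : 0 < q := norm_pos_iff.2 ((_root_.map_ne_zero φ).2 hp0)
  have hq1 : q < 1 := hφ.small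
  have h4 : q ^ s3 ≤ ‖(4 : F2)‖ := by
    have h5 := hφ.int _ hs3
    rw [map_mul, map_inv₀, map_pow, map_ofNat, norm_mul, norm_inv, norm_pow] at h5
    have h40 : (4 : F2) ≠ 0 := by
      have h6 : φ (4 : F) ≠ 0 := (_root_.map_ne_zero φ).2 (by norm_num)
      rw [map_ofNat] at h6
      exact h6
    have h4pos : 0 < ‖(4 : F2)‖ := norm_pos_iff.2 h40
    rw [inv_mul_le_iff₀ h4pos, mul_one] at h5
    exact h5
  set R := (q ^ s)⁻¹ with hR
  have hqs : 0 < q ^ s := pow_pos hq0 s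
  have hR1 : 1 ≤ R := by
    rw [hR, one_le_inv₀ hqs]
    exact pow_le_one₀ hq0.le hq1.le
  have hR0 : 0 < R := zero_lt_one.trans_le hR1
  have hθR : ‖θ'‖ ≤ R := by
    rw [hR, le_inv_iff_aux hqs]
    exact h1
  have hDR : ∀ i, ‖(D.map φ).coeff i‖ ≤ R := by
    intro i
    rw [coeff_map, hR, le_inv_iff_aux hqs]
    exact h2 i
  have hclose1 : ‖θ - θ'‖ ≤ 1 := hclose.trans (pow_le_one₀ hq0.le hq1.le)
  have hθR2 : ‖θ‖ ≤ R := by
    have e1 : θ = (θ - θ') + θ' := by ring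
    rw [e1]
    exact (IsUltrametricDist.norm_add_le_max _ _).trans (max_le (hclose1.trans hR1) hθR)
  have hdiff := eval_sub_bd hR1 hDR hθR2 hθR
  rw [Polynomial.natDegree_map, eval_map, eval_map] at hdiff
  have hD0 : eval₂ φ θ' D ≠ 0 := by
    intro h
    rw [h, norm_zero] at h3
    linarith
  have hDpos : 0 < ‖eval₂ φ θ' D‖ := norm_pos_iff.2 hD0
  obtain ⟨u, hu0, hu⟩ := hSQR F2 ((eval₂ φ θ D - eval₂ φ θ' D) / eval₂ φ θ' D) (by
    rw [norm_div, div_lt_iff₀ hDpos]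
    have e1 : R ^ (D.natDegree + 1) * q ^ (2 * s + s * (D.natDegree + 1) + s3 + 1) =
        q ^ (2 * s + s3 + 1) := by
      have e2 : 2 * s + s * (D.natDegree + 1) + s3 + 1 =
          s * (D.natDegree + 1) + (2 * s + s3 + 1) := by ring
      rw [e2, pow_add q, pow_mul q s, ← mul_assoc, ← mul_pow, hR,
        inv_mul_cancel₀ hqs.ne', one_pow, one_mul]
    calc ‖eval₂ φ θ D - eval₂ φ θ' D‖ ≤ R ^ (D.natDegree + 1) * ‖θ - θ'‖ := hdiff
      _ ≤ R ^ (D.natDegree + 1) * q ^ (2 * s + s * (D.natDegree + 1) + s3 + 1) :=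
          mul_le_mul_of_nonneg_left hclose (by positivity)
      _ = q ^ (2 * s + s3 + 1) := e1
      _ = q ^ s3 * (q ^ s * q ^ (s + 1)) := by
          rw [← pow_add, ← pow_add]
          congr 1
          ring
      _ < q ^ s3 * (q ^ s * 1) := by
          apply mul_lt_mul_of_pos_left _ (pow_pos hq0 _)
          apply mul_lt_mul_of_pos_left _ hqs
          exact pow_lt_one₀ hq0.le hq1 (by omega)
      _ = q ^ s3 * q ^ s := by rw [mul_one]
      _ ≤ ‖(4 : F2)‖ * ‖eval₂ φ θ' D‖ := mul_le_mul h4 h3 hqs.le (norm_nonneg _))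
  refine ⟨u, hu0, ?_⟩
  rw [hu]
  field_simp
  ring

end Pool.Agent.H23.N6P
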